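import Pool.Agent.H77.SchutteBig

/-!
# Improved lower bounds for Schütte tournaments (property `S_k`)
-/

namespace Pool.Agent.Results.MP_42c63a_co.LowerBound

open Pool.Agent.H77.Schutte

/-- Certificates for `k = 1, …, 21`. -/
def certsA : List (List (ℕ × ℕ)) :=
  [[],
   [],
   [],
   [],
   [(14, 4)],
   [(16, 5), (34, 4)],
   [(19, 6), (40, 5)],
   [(21, 7), (45, 6), (92, 5), (186, 4)],
   [(24, 8), (51, 7), (105, 6)],
   [(26, 9), (56, 8), (115, 7), (233, 6)],
   [(29, 10), (62, 9), (128, 8)],
   [(31, 11), (67, 10), (138, 9), (280, 8)],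
   [(34, 12), (73, 11), (151, 10)],
   [(37, 13), (80, 12), (165, 11)],
   [(39, 14), (84, 13), (174, 12)],
   [(42, 15), (91, 14), (188, 13)],
   [(44, 16), (95, 15), (197, 14)],
   [(47, 17), (102, 16), (211, 15)],
   [(49, 18), (106, 17), (220, 16)],
   [(52, 19), (113, 18), (234, 17)],
   [(54, 20), (117, 19), (243, 18), (495, 17)]]

/-- Certificates for `k = 22, …, 229`. -/
def certsB : List (List (ℕ × ℕ)) :=
  [[(57, 21), (124, 20), (257, 19), (522, 18), (1052, 17), (2112, 16)],
   [(60, 22), (130, 21), (269, 20), (547, 19), (1103, 18), (2214, 17)],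
   [(62, 23), (135, 22), (280, 21), (569, 20), (1147, 19), (2303, 18), (4614, 17)],
   [(65, 24), (141, 23), (292, 22), (594, 21), (1198, 20), (2405, 19)],
   [(67, 25), (146, 24), (303, 23), (616, 22), (1242, 21), (2493, 20), (4995, 19)],
   [(70, 26), (152, 25), (315, 24), (641, 23), (1292, 22), (2594, 21)],
   [(72, 27), (157, 26), (326, 25), (663, 24), (1337, 23), (2684, 22), (5378, 21)],
   [(75, 28), (163, 27), (339, 26), (690, 25), (1392, 24)],
   [(77, 29), (168, 28), (349, 27), (710, 26), (1432, 25), (2875, 24), (5761, 23)],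
   [(80, 30), (174, 29), (362, 28), (737, 27), (1487, 26), (2987, 25)],
   [(83, 31), (181, 30), (376, 29), (766, 28), (1545, 27)],
   [(85, 32), (185, 31), (385, 30), (784, 29), (1582, 28), (3177, 27)],
   [(88, 33), (192, 32), (399, 31), (813, 30), (1640, 29)],
   [(90, 34), (196, 33), (408, 32), (831, 31), (1677, 30), (3368, 29)],
   [(93, 35), (203, 34), (422, 33), (860, 32), (1735, 31)],
   [(95, 36), (207, 35), (431, 34), (878, 33), (1771, 32), (3557, 31)],
   [(98, 37), (214, 36), (445, 35), (907, 34), (1830, 33)],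
   [(101, 38), (221, 37), (460, 36), (937, 35)],
   [(103, 39), (225, 38), (468, 37), (954, 36), (1925, 35)],
   [(106, 40), (232, 39), (483, 38), (984, 37)],
   [(108, 41), (236, 40), (491, 39), (1001, 38), (2020, 37)],
   [(111, 42), (243, 41), (506, 40), (1031, 39), (2081, 38)],
   [(113, 43), (247, 42), (514, 41), (1048, 40), (2115, 39)],
   [(116, 44), (254, 43), (529, 42), (1078, 41), (2176, 40)],
   [(118, 45), (258, 44), (537, 43), (1095, 42), (2210, 41)],
   [(121, 46), (265, 45), (552, 44), (1125, 43), (2271, 42)],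
   [(124, 47), (271, 46), (564, 45), (1150, 44), (2322, 43)],
   [(126, 48), (276, 47), (575, 46), (1172, 45), (2366, 44)],
   [(129, 49), (282, 48), (587, 47), (1197, 46), (2416, 45)],
   [(131, 50), (287, 49), (598, 48), (1219, 47), (2461, 46)],
   [(134, 51), (293, 50), (610, 49), (1244, 48), (2511, 47)],
   [(136, 52), (298, 51), (621, 50), (1266, 49), (2556, 48)],
   [(139, 53), (304, 52), (633, 51), (1291, 50), (2606, 49)],
   [(141, 54), (309, 53), (644, 52), (1313, 51), (2651, 50)],
   [(144, 55), (315, 54), (656, 53), (1338, 52), (2701, 51)],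
   [(147, 56), (322, 55), (671, 54), (1368, 53)],
   [(149, 57), (327, 56), (681, 55), (1389, 54), (2805, 53)],
   [(152, 58), (333, 57), (694, 56), (1415, 55), (2857, 54)],
   [(154, 59), (338, 58), (704, 57), (1436, 56), (2900, 55)],
   [(157, 60), (344, 59), (717, 58), (1462, 57), (2952, 56)],
   [(159, 61), (349, 60), (727, 59), (1483, 58), (2994, 57)],
   [(162, 62), (355, 61), (740, 60), (1509, 59), (3047, 58)],
   [(165, 63), (362, 62), (754, 61), (1538, 60)],
   [(167, 64), (366, 63), (763, 62), (1556, 61), (3142, 60)],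
   [(170, 65), (373, 64), (777, 63), (1585, 62)],
   [(172, 66), (377, 65), (786, 64), (1603, 63), (3237, 62)],
   [(175, 67), (384, 66), (800, 65), (1632, 64)],
   [(177, 68), (388, 67), (809, 66), (1650, 65), (3332, 64)],
   [(180, 69), (395, 68), (824, 67), (1681, 66)],
   [(182, 70), (399, 69), (832, 68), (1697, 67), (3427, 66)],
   [(185, 71), (406, 70), (847, 69), (1728, 68)],
   [(188, 72), (412, 71), (859, 70), (1752, 69)],
   [(190, 73), (417, 72), (870, 71), (1775, 70), (3585, 69)],
   [(193, 74), (423, 73), (882, 72), (1799, 71), (3633, 70)],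
   [(195, 75), (428, 74), (893, 73), (1822, 72), (3680, 71)],
   [(198, 76), (434, 75), (905, 74), (1846, 73), (3728, 72)],
   [(200, 77), (439, 76), (916, 75), (1869, 74), (3775, 73)],
   [(203, 78), (446, 77), (930, 76), (1897, 75)],
   [(206, 79), (452, 78), (943, 77), (1924, 76)],
   [(208, 80), (457, 79), (953, 78), (1944, 77)],
   [(211, 81), (463, 80), (966, 79), (1971, 78)],
   [(213, 82), (468, 81), (976, 80), (1991, 79), (4021, 78)],
   [(216, 83), (474, 82), (989, 81), (2018, 80)],
   [(218, 84), (479, 83), (999, 82), (2038, 81), (4116, 80)],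
   [(221, 85), (485, 84), (1012, 83), (2065, 82)],
   [(223, 86), (490, 85), (1022, 84), (2085, 83), (4211, 82)],
   [(226, 87), (496, 86), (1035, 85), (2112, 84)],
   [(229, 88), (503, 87), (1049, 86), (2140, 85)],
   [(231, 89), (507, 88), (1058, 87), (2159, 86), (4361, 85)],
   [(234, 90), (514, 89), (1072, 88), (2187, 87)],
   [(236, 91), (518, 90), (1081, 89), (2206, 88), (4456, 87)],
   [(239, 92), (525, 91), (1095, 90), (2234, 89)],
   [(241, 93), (529, 92), (1104, 91), (2253, 90), (4551, 89)],
   [(244, 94), (536, 93), (1118, 92), (2281, 91)],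
   [(247, 95), (542, 94), (1131, 93), (2308, 92)],
   [(249, 96), (547, 95), (1141, 94), (2328, 93)],
   [(252, 97), (553, 96), (1154, 95), (2355, 94)],
   [(254, 98), (558, 97), (1164, 96), (2375, 95), (4797, 94)],
   [(257, 99), (565, 98), (1179, 97), (2406, 96)],
   [(259, 100), (569, 99), (1187, 98), (2422, 97), (4892, 96)],
   [(262, 101), (576, 100), (1202, 99), (2453, 98)],
   [(264, 102), (580, 101), (1210, 100), (2470, 99), (4989, 98)],
   [(267, 103), (587, 102), (1225, 101), (2500, 100)],
   [(270, 104), (593, 103), (1237, 102), (2525, 101)],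
   [(272, 105), (598, 104), (1248, 103), (2547, 102)],
   [(275, 106), (604, 105), (1260, 104), (2572, 103)],
   [(277, 107), (609, 106), (1271, 105), (2594, 104)],
   [(280, 108), (615, 107), (1283, 106), (2619, 105)],
   [(282, 109), (620, 108), (1294, 107), (2641, 106)],
   [(285, 110), (626, 109), (1306, 108), (2666, 107)],
   [(288, 111), (633, 110), (1321, 109), (2696, 108)],
   [(290, 112), (637, 111), (1329, 110), (2713, 109)],
   [(293, 113), (644, 112), (1344, 111), (2743, 110)],
   [(295, 114), (648, 113), (1352, 112), (2760, 111)],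
   [(298, 115), (655, 114), (1367, 113), (2790, 112)],
   [(300, 116), (659, 115), (1376, 114), (2809, 113)],
   [(303, 117), (666, 116), (1390, 115), (2837, 114)],
   [(305, 118), (670, 117), (1399, 116), (2856, 115)],
   [(308, 119), (677, 118), (1413, 117), (2884, 116)],
   [(311, 120), (684, 119), (1428, 118), (2915, 117)],
   [(313, 121), (688, 120), (1436, 119), (2931, 118)],
   [(316, 122), (695, 121), (1451, 120), (2962, 119)],
   [(318, 123), (699, 122), (1459, 121), (2978, 120)],
   [(321, 124), (706, 123), (1474, 122), (3009, 121)],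
   [(323, 125), (710, 124), (1482, 123), (3025, 122)],
   [(326, 126), (717, 125), (1497, 124), (3056, 123)],
   [(329, 127), (723, 126), (1509, 125), (3080, 124)],
   [(331, 128), (728, 127), (1520, 126), (3103, 125)],
   [(334, 129), (734, 128), (1532, 127), (3127, 126)],
   [(336, 130), (739, 129), (1543, 128), (3150, 127)],
   [(339, 131), (745, 130), (1555, 129), (3174, 128)],
   [(341, 132), (750, 131), (1566, 130), (3197, 129)],
   [(344, 133), (756, 132), (1578, 131), (3221, 130)],
   [(346, 134), (761, 133), (1589, 132), (3244, 131)],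
   [(349, 135), (767, 134), (1601, 133), (3268, 132)],
   [(352, 136), (774, 135), (1616, 134), (3299, 133)],
   [(354, 137), (778, 136), (1624, 135), (3315, 134)],
   [(357, 138), (785, 137), (1639, 136), (3346, 135)],
   [(359, 139), (790, 138), (1649, 137), (3366, 136)],
   [(362, 140), (796, 139), (1662, 138), (3393, 137)],
   [(364, 141), (801, 140), (1672, 139), (3413, 138)],
   [(367, 142), (807, 141), (1685, 140), (3440, 139)],
   [(370, 143), (814, 142), (1699, 141), (3468, 140)],
   [(372, 144), (818, 143), (1708, 142), (3487, 141)],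
   [(375, 145), (825, 144), (1722, 143), (3515, 142)],
   [(377, 146), (829, 145), (1731, 144), (3534, 143)],
   [(380, 147), (836, 146), (1745, 145), (3562, 144)],
   [(382, 148), (840, 147), (1754, 146), (3581, 145)],
   [(385, 149), (847, 148), (1768, 147), (3609, 146)],
   [(387, 150), (851, 149), (1777, 148), (3628, 147)],
   [(390, 151), (858, 150), (1791, 149), (3656, 148)],
   [(393, 152), (864, 151), (1804, 150), (3683, 149)],
   [(395, 153), (869, 152), (1814, 151), (3703, 150)],
   [(398, 154), (875, 153), (1827, 152), (3730, 151)],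
   [(400, 155), (880, 154), (1837, 153), (3750, 152)],
   [(403, 156), (886, 155), (1850, 154), (3777, 153)],
   [(405, 157), (891, 156), (1860, 155), (3797, 154)],
   [(408, 158), (897, 157), (1873, 156), (3824, 155)],
   [(411, 159), (904, 158), (1888, 157), (3854, 156)],
   [(413, 160), (909, 159), (1898, 158), (3875, 157)],
   [(416, 161), (915, 160), (1911, 159), (3901, 158)],
   [(418, 162), (920, 161), (1921, 160), (3922, 159)],
   [(421, 163), (926, 162), (1934, 161), (3948, 160)],
   [(423, 164), (931, 163), (1944, 162), (3969, 161)],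
   [(426, 165), (937, 164), (1957, 163), (3995, 162)],
   [(428, 166), (942, 165), (1967, 164), (4016, 163)],
   [(431, 167), (948, 166), (1980, 165), (4042, 164)],
   [(434, 168), (955, 167), (1994, 166), (4071, 165)],
   [(436, 169), (959, 168), (2003, 167), (4089, 166)],
   [(439, 170), (966, 169), (2017, 168), (4118, 167)],
   [(441, 171), (970, 170), (2026, 169), (4136, 168)],
   [(444, 172), (977, 171), (2040, 170), (4165, 169)],
   [(446, 173), (981, 172), (2049, 171), (4183, 170)],
   [(449, 174), (988, 173), (2063, 172), (4212, 171)],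
   [(451, 175), (992, 174), (2072, 173), (4230, 172)],
   [(454, 176), (999, 175), (2086, 174), (4259, 173)],
   [(457, 177), (1005, 176), (2099, 175), (4285, 174)],
   [(459, 178), (1010, 177), (2109, 176), (4306, 175)],
   [(462, 179), (1016, 178), (2122, 177), (4332, 176)],
   [(464, 180), (1021, 179), (2132, 178), (4353, 177)],
   [(467, 181), (1028, 180), (2147, 179), (4384, 178)],
   [(469, 182), (1032, 181), (2155, 180), (4400, 179)],
   [(472, 183), (1039, 182), (2170, 181), (4431, 180)],
   [(475, 184), (1045, 183), (2182, 182), (4455, 181)],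
   [(477, 185), (1050, 184), (2193, 183), (4478, 182)],
   [(480, 186), (1056, 185), (2205, 184), (4502, 183)],
   [(482, 187), (1061, 186), (2216, 185), (4525, 184)],
   [(485, 188), (1067, 187), (2228, 186), (4549, 185)],
   [(487, 189), (1072, 188), (2239, 187), (4572, 186)],
   [(490, 190), (1078, 189), (2251, 188), (4596, 187)],
   [(492, 191), (1083, 190), (2262, 189), (4619, 188)],
   [(495, 192), (1089, 191), (2274, 190), (4643, 189)],
   [(498, 193), (1096, 192), (2289, 191), (4674, 190)],
   [(500, 194), (1100, 193), (2297, 192), (4690, 191)],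
   [(503, 195), (1107, 194), (2312, 193), (4721, 192)],
   [(505, 196), (1111, 195), (2320, 194), (4737, 193)],
   [(508, 197), (1118, 196), (2335, 195), (4768, 194)],
   [(510, 198), (1122, 197), (2343, 196), (4784, 195)],
   [(513, 199), (1129, 198), (2358, 197), (4815, 196)],
   [(516, 200), (1135, 199), (2370, 198), (4839, 197)],
   [(518, 201), (1140, 200), (2381, 199), (4862, 198)],
   [(521, 202), (1147, 201), (2395, 200), (4890, 199)],
   [(523, 203), (1151, 202), (2404, 201), (4909, 200)],
   [(526, 204), (1158, 203), (2419, 202), (4939, 201)],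
   [(528, 205), (1162, 204), (2427, 203), (4956, 202)],
   [(531, 206), (1169, 205), (2442, 204), (4986, 203)],
   [(533, 207), (1173, 206), (2450, 205), (5003, 204)],
   [(536, 208), (1180, 207), (2465, 206), (5033, 205)],
   [(539, 209), (1186, 208), (2477, 207), (5058, 206)],
   [(541, 210), (1191, 209), (2488, 208), (5080, 207)],
   [(544, 211), (1197, 210), (2500, 209), (5105, 208)],
   [(546, 212), (1202, 211), (2511, 210), (5127, 209)],
   [(549, 213), (1208, 212), (2523, 211), (5152, 210)],
   [(551, 214), (1213, 213), (2534, 212), (5174, 211)],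
   [(554, 215), (1219, 214), (2546, 213), (5199, 212)],
   [(557, 216), (1226, 215), (2561, 214), (5229, 213)],
   [(559, 217), (1230, 216), (2569, 215), (5246, 214)],
   [(562, 218), (1237, 217), (2584, 216), (5276, 215)],
   [(564, 219), (1241, 218), (2592, 217), (5293, 216)],
   [(567, 220), (1248, 219), (2607, 218), (5323, 217)],
   [(569, 221), (1253, 220), (2617, 219), (5344, 218)],
   [(572, 222), (1259, 221), (2630, 220), (5370, 219)],
   [(574, 223), (1264, 222), (2640, 221), (5391, 220)],
   [(577, 224), (1270, 223), (2653, 222), (5417, 221)],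
   [(580, 225), (1277, 224), (2667, 223), (5446, 222)],
   [(582, 226), (1281, 225), (2676, 224), (5464, 223)],
   [(585, 227), (1288, 226), (2690, 225), (5493, 224)],
   [(587, 228), (1292, 227), (2699, 226), (5511, 225)]]

lemma certsA_ok : ∀ k < 21, check ((93 * (k + 1) * 2 ^ (k + 1) - 1) / 128) (k + 1)
    (certsA.getD k []) [k + 1 + 1, 1] = true := by
  decide +kernel

lemma certsB_ok : ∀ k < 208, check ((3 * (k + 22) * 2 ^ (k + 22) - 1) / 4) (k + 22)
    (certsB.getD k []) [k + 22 + 1, 1] = true := by
  decide +kernel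

lemma large {V : Type} [Fintype V] {E : V → V → Prop} {k : ℕ} (hT : IsTournament E)
    (hk : k ≤ Fintype.card V) (hS : HasS E k) (hk1 : 22 ≤ k) :
    3 * k * 2 ^ k ≤ 4 * Fintype.card V := by
  rcases Nat.lt_or_ge k 230 with h | h
  · obtain ⟨i, rfl⟩ : ∃ i, k = i + 22 := ⟨k - 22, by omega⟩
    have h1 := certsB_ok i (by omega)
    have h2 := bound_of_check hT hS hk _ h1
    have h3 : 1 ≤ 3 * (i + 22) * 2 ^ (i + 22) := Nat.one_le_iff_ne_zero.2 (by positivity)
    have h4 : (3 * (i + 22) * 2 ^ (i + 22) - 1) / 4 < Fintype.card V := by omega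
    rw [Nat.div_lt_iff_lt_mul (by norm_num)] at h4
    omega
  · exact big_k hT hS hk h

lemma small {V : Type} [Fintype V] {E : V → V → Prop} {k : ℕ} (hT : IsTournament E)
    (hk : k ≤ Fintype.card V) (hS : HasS E k) (hk1 : 1 ≤ k) :
    93 * k * 2 ^ k ≤ 128 * Fintype.card V := by
  rcases Nat.lt_or_ge k 22 with h | h
  · obtain ⟨i, rfl⟩ : ∃ i, k = i + 1 := ⟨k - 1, by omega⟩
    have h1 := certsA_ok i (by omega)
    have h2 := bound_of_check hT hS hk _ h1
    have h3 : 1 ≤ 93 * (i + 1) * 2 ^ (i + 1) := Nat.one_le_iff_ne_zero.2 (by positivity)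
    have h4 : (93 * (i + 1) * 2 ^ (i + 1) - 1) / 128 < Fintype.card V := by omega
    rw [Nat.div_lt_iff_lt_mul (by norm_num)] at h4
    omega
  · have h1 := large hT hk hS h
    have h2 : 0 ≤ k * 2 ^ k := Nat.zero_le _
    nlinarith

/-- Let `T` be a tournament on `n ≥ k ≥ 1` vertices in which every `k`-set of vertices is dominated
by a vertex.  Then `n ≥ (93/128) k 2^k`, and if `k ≥ 22` then `n ≥ (3/4) k 2^k`. -/
theorem result (k : ℕ) (hk : 1 ≤ k) (V : Type) [Fintype V] (E : V → V → Prop)
    (hT : IsTournament E) (hkV : k ≤ Fintype.card V) (hS : HasS E k) :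
    93 * k * 2 ^ k ≤ 128 * Fintype.card V ∧
      (22 ≤ k → 3 * k * 2 ^ k ≤ 4 * Fintype.card V) :=
  ⟨small hT hkV hS hk, fun h => large hT hkV hS h⟩

end Pool.Agent.Results.MP_42c63a_co.LowerBound
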